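import Mathlib

namespace Pool.Agent.Results.MP_b87ef1_co.PlusTwo

open Finset

/-- No three pairwise distinct members with `A ∪ B = C` or `A ∩ B = C`. -/
def Admissible {n : ℕ} (F : Finset (Finset (Fin n))) : Prop :=
  ∀ A ∈ F, ∀ B ∈ F, ∀ C ∈ F, A ≠ B → A ≠ C → B ≠ C → A ∪ B ≠ C ∧ A ∩ B ≠ C

lemma card_not {n : ℕ} (z : Fin n) (k : ℕ) :
    (univ.filter (fun S : Finset (Fin n) => z ∉ S ∧ S.card = k)).card = (n - 1).choose k := by
  have : univ.filter (fun S : Finset (Fin n) => z ∉ S ∧ S.card = k)
      = powersetCard k (univ.erase z) := by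
    ext S
    simp only [mem_filter, mem_univ, true_and, mem_powersetCard, subset_erase, subset_univ]
  rw [this, card_powersetCard, card_erase_of_mem (mem_univ _)]
  simp

lemma card_mem {n : ℕ} (z : Fin n) (k : ℕ) :
    (univ.filter (fun S : Finset (Fin n) => z ∈ S ∧ S.card = k + 1)).card = (n - 1).choose k := by
  rw [← card_not z k]
  apply card_bij (fun S _ => S.erase z)
  · intro S hS
    simp only [mem_filter, mem_univ, true_and] at hS ⊢
    exact ⟨notMem_erase _ _, by rw [card_erase_of_mem hS.1, hS.2]; rfl⟩
  · intro S hS T hT h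
    simp only [mem_filter, mem_univ, true_and] at hS hT
    rw [← insert_erase hS.1, ← insert_erase hT.1, h]
  · intro T hT
    simp only [mem_filter, mem_univ, true_and] at hT
    refine ⟨insert z T, ?_, erase_insert hT.1⟩
    simp only [mem_filter, mem_univ, true_and]
    exact ⟨mem_insert_self _ _, by rw [card_insert_of_notMem hT.1, hT.2]⟩

lemma le_pred {n : ℕ} (z : Fin n) (S : Finset (Fin n)) (h : z ∉ S) : S.card + 1 ≤ n := by
  have := card_le_univ (insert z S)
  rw [card_insert_of_notMem h] at this
  simpa using this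

lemma even_case (p : ℕ) :
    ∃ F : Finset (Finset (Fin (2 * (p + 2)))), Admissible F ∧
      F.card = (2 * (p + 2)).choose (p + 2) + 2 := by
  let z : Fin (2 * (p + 2)) := ⟨0, by omega⟩
  let P : Finset (Fin (2 * (p + 2))) → Prop := fun S =>
    ((z ∉ S ∧ S.card = p + 1) ∨ (z ∉ S ∧ S.card = 2 * p + 3)) ∨
      ((z ∈ S ∧ S.card = (p + 2) + 1) ∨ (z ∈ S ∧ S.card = 0 + 1))
  refine ⟨univ.filter P, ?_, ?_⟩
  · intro A hA B hB C hC hAB hAC hBC
    simp only [mem_filter, mem_univ, true_and, P] at hA hB hC
    have e := card_union_add_card_inter A B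
    have hu : (A ∪ B).card ≤ 2 * (p + 2) := by simpa using card_le_univ (A ∪ B)
    constructor
    · rintro rfl
      have h1 : A.card < (A ∪ B).card := card_lt_card (lt_of_le_of_ne subset_union_left hAC)
      have h2 : B.card < (A ∪ B).card := card_lt_card (lt_of_le_of_ne subset_union_right hBC)
      by_cases ha : z ∈ A <;> by_cases hb : z ∈ B <;>
        simp only [mem_union, ha, hb, not_true, not_false_iff, true_and, false_and, or_false,
          false_or, or_true, true_or, or_self] at hA hB hC <;> omega
    · rintro rfl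
      have h1 : (A ∩ B).card < A.card :=
        card_lt_card (lt_of_le_of_ne inter_subset_left (Ne.symm hAC))
      have h2 : (A ∩ B).card < B.card :=
        card_lt_card (lt_of_le_of_ne inter_subset_right (Ne.symm hBC))
      have h3 : z ∉ A → z ∉ B → (A ∪ B).card + 1 ≤ 2 * (p + 2) := fun ha hb =>
        le_pred z _ (by simp [ha, hb])
      by_cases ha : z ∈ A <;> by_cases hb : z ∈ B <;>
        simp only [mem_inter, ha, hb, not_true, not_false_iff, true_and, false_and, or_false,
          false_or, and_true, and_false, and_self, forall_true_left, IsEmpty.forall_iff,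
          implies_true] at hA hB hC h3 <;> omega
  · simp only [P]
    rw [filter_or, filter_or, filter_or, card_union_of_disjoint, card_union_of_disjoint,
      card_union_of_disjoint, card_not, card_not, card_mem, card_mem]
    · have e : 2 * (p + 2) - 1 = 2 * p + 3 := by omega
      have e2 : 2 * (p + 2) = (2 * p + 3) + 1 := by omega
      rw [e, Nat.choose_self, Nat.choose_zero_right, e2, Nat.choose_succ_succ' (2 * p + 3) (p + 1)]
      ring
    · rw [disjoint_filter]; intro S _ h1 h2; omega
    · rw [disjoint_filter]; intro S _ h1 h2; omega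
    · rw [← filter_or, ← filter_or, disjoint_filter]
      intro S _ h1 h2
      tauto

lemma seven : ∃ F : Finset (Finset (Fin 7)), Admissible F ∧ F.card = 42 := by
  refine ⟨univ.filter (fun S => S.card = 2 ∨ S.card = 5), ?_, ?_⟩
  · intro A hA B hB C hC hAB hAC hBC
    simp only [mem_filter, mem_univ, true_and] at hA hB hC
    have e := card_union_add_card_inter A B
    have hu : (A ∪ B).card ≤ 7 := by simpa using card_le_univ (A ∪ B)
    constructor
    · rintro rfl
      have h1 : A.card < (A ∪ B).card := card_lt_card (lt_of_le_of_ne subset_union_left hAC)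
      have h2 : B.card < (A ∪ B).card := card_lt_card (lt_of_le_of_ne subset_union_right hBC)
      omega
    · rintro rfl
      have h1 : (A ∩ B).card < A.card :=
        card_lt_card (lt_of_le_of_ne inter_subset_left (Ne.symm hAC))
      have h2 : (A ∩ B).card < B.card :=
        card_lt_card (lt_of_le_of_ne inter_subset_right (Ne.symm hBC))
      omega
  · decide +kernel

theorem result :
    (∀ n : ℕ, Even n → 4 ≤ n →
      ∃ F : Finset (Finset (Fin n)), Admissible F ∧ F.card = n.choose (n / 2) + 2) ∧
    (∃ F : Finset (Finset (Fin 7)), Admissible F ∧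
      ((7 + 1 : ℚ) / 7) * (Nat.choose 7 ((7 - 1) / 2) : ℚ) < (F.card : ℚ)) := by
  constructor
  · rintro n ⟨m, rfl⟩ hn
    obtain ⟨p, rfl⟩ : ∃ p, m = p + 2 := ⟨m - 2, by omega⟩
    have e : (p + 2 + (p + 2)) / 2 = p + 2 := by omega
    rw [e, ← two_mul]
    exact even_case p
  · obtain ⟨F, hF, hc⟩ := seven
    refine ⟨F, hF, ?_⟩
    rw [hc]
    norm_num [Nat.choose]

end Pool.Agent.Results.MP_b87ef1_co.PlusTwo
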